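import Pool.Agent.helper31.GPR.Spec

set_option autoImplicit false

namespace Pool.Agent.GPR

open Pool.Agent.helper25.QST

theorem RKA_rank {V : Type} [AddCommGroup V] [Module (ZMod 2) V] [Finite V] (M : V →ₗ[ZMod 2] V)
    (W : Submodule (ZMod 2) V) : Module.finrank (ZMod 2) (LinearMap.range M) + Module.finrank (ZMod 2) (W.comap M) ≤
      Module.finrank (ZMod 2) V + Module.finrank (ZMod 2) W := by
  have h1 := LinearMap.finrank_range_add_finrank_ker M
  have h2 := LinearMap.finrank_range_add_finrank_ker (M.domRestrict (W.comap M))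
  have h3 : Module.finrank (ZMod 2) (LinearMap.range (M.domRestrict (W.comap M))) ≤ Module.finrank (ZMod 2) W := by
    apply Submodule.finrank_mono
    rintro - ⟨y, rfl⟩
    exact y.2
  have h4 : Module.finrank (ZMod 2) (LinearMap.ker (M.domRestrict (W.comap M))) ≤
      Module.finrank (ZMod 2) (LinearMap.ker M) := by
    have h5 : (LinearMap.ker (M.domRestrict (W.comap M))).map (W.comap M).subtype ≤ LinearMap.ker M := by
      rintro - ⟨y, hy, rfl⟩
      exact hy
    have h6 := Submodule.finrank_mono h5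
    rwa [Submodule.finrank_map_subtype_eq] at h6
  omega

theorem RKA_two {V : Type} [AddCommGroup V] [Module (ZMod 2) V] (v : V) : v + v = 0 := by
  have h : (2 : ZMod 2) • v = v + v := two_smul _ v
  rw [← h]
  have h2 : (2 : ZMod 2) = 0 := by decide
  rw [h2, zero_smul]

theorem RKA (hMLP : MLP_stmt) : RKA_stmt := by
  intro V _ _ _ n l S J V1 hn hnl hA h g x hh hg hhg hx hcard
  obtain ⟨hxS, hxh, hxg, hxhg, -, -⟩ := hx
  obtain ⟨Dh, hDh⟩ : ∃ Dh : V →ₗ[ZMod 2] V, Dh = J x + J (x + h) := ⟨_, rfl⟩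
  obtain ⟨Dg, hDg⟩ : ∃ Dg : V →ₗ[ZMod 2] V, Dg = J x + J (x + g) := ⟨_, rfl⟩
  rw [← hDh, ← hDg]
  have two : ∀ v : V, v + v = 0 := RKA_two
  have hpt : x + h + (h + g) = x + g := by
    have e : x + h + (h + g) = x + g + (h + h) := by abel
    rw [e, two, add_zero]
  have hhg0 : h + g ≠ 0 := by
    intro e
    apply hhg
    have e1 : h = -g := eq_neg_of_add_eq_zero_left e
    have e2 : -g = g := by
      rw [neg_eq_iff_add_eq_zero]
      exact two g
    rw [e1, e2]
  have hD' : J (x + h) + J (x + h + (h + g)) = Dh + Dg := by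
    rw [hpt, hDh, hDg]
    ext v
    simp only [LinearMap.add_apply]
    have e : J x v + J (x + h) v + (J x v + J (x + g) v) = J (x + h) v + J (x + g) v + (J x v + J x v) := by abel
    rw [e, two, add_zero]
  -- the three exceptional sets
  have m1 := hMLP V S J V1 hA x h hxS hxh hh
  have m2 := hMLP V S J V1 hA x g hxS hxg hg
  have m3 := hMLP V S J V1 hA (x + h) (h + g) hxh (by rw [hpt]; exact hxg) hhg0
  rw [hD'] at m3
  rw [← hDh] at m1
  rw [← hDg] at m2
  obtain ⟨b, hb⟩ : ∃ b : Fin 9 → V, b = ![x, h, g, Dh x, Dh h, Dh g, Dg x, Dg h, Dg g] := ⟨_, rfl⟩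
  obtain ⟨W, hW⟩ : ∃ W : Submodule (ZMod 2) V, W = Submodule.span (ZMod 2) (Set.range b) := ⟨_, rfl⟩
  have hWr : Module.finrank (ZMod 2) W ≤ 9 := by
    rw [hW]
    have := finrank_range_le_card (R := ZMod 2) b
    rw [Fintype.card_fin] at this
    exact this
  have hbm : ∀ i, b i ∈ W := fun i => by
    rw [hW]
    exact Submodule.subset_span ⟨i, rfl⟩
  have wx : x ∈ W := by have := hbm 0; rw [hb] at this; exact this
  have wh : h ∈ W := by have := hbm 1; rw [hb] at this; exact this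
  have wg : g ∈ W := by have := hbm 2; rw [hb] at this; exact this
  have whx : Dh x ∈ W := by have := hbm 3; rw [hb] at this; exact this
  have whh : Dh h ∈ W := by have := hbm 4; rw [hb] at this; exact this
  have whg : Dh g ∈ W := by have := hbm 5; rw [hb] at this; exact this
  have wgx : Dg x ∈ W := by have := hbm 6; rw [hb] at this; exact this
  have wgh : Dg h ∈ W := by have := hbm 7; rw [hb] at this; exact this
  have wgg : Dg g ∈ W := by have := hbm 8; rw [hb] at this; exact this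
  have i1 : Wh x h Dh ≤ W := by
    unfold Wh
    rw [Submodule.span_le]
    intro v hv
    simp only [Set.mem_insert_iff, Set.mem_singleton_iff] at hv
    rcases hv with rfl | rfl | rfl | rfl
    · exact wx
    · exact wh
    · exact whx
    · exact whh
  have i2 : Wh x g Dg ≤ W := by
    unfold Wh
    rw [Submodule.span_le]
    intro v hv
    simp only [Set.mem_insert_iff, Set.mem_singleton_iff] at hv
    rcases hv with rfl | rfl | rfl | rfl
    · exact wx
    · exact wg
    · exact wgx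
    · exact wgg
  have i3 : Wh (x + h) (h + g) (Dh + Dg) ≤ W := by
    unfold Wh
    rw [Submodule.span_le]
    intro v hv
    simp only [Set.mem_insert_iff, Set.mem_singleton_iff] at hv
    rcases hv with rfl | rfl | rfl | rfl
    · exact W.add_mem wx wh
    · exact W.add_mem wh wg
    · rw [LinearMap.add_apply, map_add, map_add]
      exact W.add_mem (W.add_mem whx whh) (W.add_mem wgx wgh)
    · rw [LinearMap.add_apply, map_add, map_add]
      exact W.add_mem (W.add_mem whh whg) (W.add_mem wgh wgg)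
  obtain ⟨M, hM⟩ : ∃ M : V →ₗ[ZMod 2] V, M = Dh ∘ₗ Dg + Dg ∘ₗ Dh + LinearMap.id := ⟨_, rfl⟩
  rw [← hM]
  obtain ⟨X1, hX1⟩ : ∃ X1 : Set V, X1 = {y | y ∈ Rh S J V1 h ∧ Dh (Dh y) + Dh y + y ∉ Wh x h Dh} := ⟨_, rfl⟩
  obtain ⟨X2, hX2⟩ : ∃ X2 : Set V, X2 = {y | y ∈ Rh S J V1 g ∧ Dg (Dg y) + Dg y + y ∉ Wh x g Dg} := ⟨_, rfl⟩
  obtain ⟨X3, hX3⟩ : ∃ X3 : Set V, X3 = {y | y ∈ Rh S J V1 (h + g) ∧
    (Dh + Dg) ((Dh + Dg) y) + (Dh + Dg) y + y ∉ Wh (x + h) (h + g) (Dh + Dg)} := ⟨_, rfl⟩
  rw [← hX1] at m1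
  rw [← hX2] at m2
  rw [← hX3] at m3
  have hsub : Zh S J V1 h g ⊆ ((W.comap M : Submodule (ZMod 2) V) : Set V) ∪ (X1 ∪ (X2 ∪ X3)) := by
    rintro z ⟨z1, z2, z3, z4, z5, z6⟩
    by_cases c1 : z ∈ X1
    · exact Or.inr (Or.inl c1)
    by_cases c2 : z ∈ X2
    · exact Or.inr (Or.inr (Or.inl c2))
    by_cases c3 : z ∈ X3
    · exact Or.inr (Or.inr (Or.inr c3))
    left
    rw [hX1, Set.mem_ofPred_eq, not_and, not_not] at c1
    rw [hX2, Set.mem_ofPred_eq, not_and, not_not] at c2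
    rw [hX3, Set.mem_ofPred_eq, not_and, not_not] at c3
    have d1 := i1 (c1 ⟨z1, z2, z5⟩)
    have d2 := i2 (c2 ⟨z1, z3, z6⟩)
    have d3 := i3 (c3 ⟨z1, by rw [← add_assoc]; exact z4, by rw [map_add]; exact V1.add_mem z5 z6⟩)
    show M z ∈ W
    have e : M z = (Dh (Dh z) + Dh z + z) + (Dg (Dg z) + Dg z + z) +
        ((Dh + Dg) ((Dh + Dg) z) + (Dh + Dg) z + z) := by
      rw [hM]
      simp only [LinearMap.add_apply, LinearMap.comp_apply, LinearMap.id_apply, map_add]
      have t1 := two (Dh (Dh z))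
      have t2 := two (Dg (Dg z))
      have t3 := two (Dh z)
      have t4 := two (Dg z)
      have t5 := two z
      have e1 : Dh (Dh z) + Dh z + z + (Dg (Dg z) + Dg z + z) +
          (Dh (Dh z) + Dh (Dg z) + (Dg (Dh z) + Dg (Dg z)) + (Dh z + Dg z) + z) =
          Dh (Dg z) + Dg (Dh z) + z + (Dh (Dh z) + Dh (Dh z)) + (Dg (Dg z) + Dg (Dg z)) + (Dh z + Dh z) + (Dg z + Dg z) +
            (z + z) := by abel
      have e2 : Dh (Dh z) + Dh z + z + (Dg (Dg z) + Dg z + z) +
          (Dh (Dh z) + Dg (Dh z) + (Dh (Dg z) + Dg (Dg z)) + (Dh z + Dg z) + z) =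
          Dh (Dg z) + Dg (Dh z) + z + (Dh (Dh z) + Dh (Dh z)) + (Dg (Dg z) + Dg (Dg z)) + (Dh z + Dh z) + (Dg z + Dg z) +
            (z + z) := by abel
      first
        | rw [e1, t1, t2, t3, t4, t5]; simp
        | rw [e2, t1, t2, t3, t4, t5]; simp
    rw [e]
    exact W.add_mem (W.add_mem d1 d2) d3
  have hc1 : (Zh S J V1 h g).ncard ≤ ((W.comap M : Submodule (ZMod 2) V) : Set V).ncard + 9 * 2 ^ 10 := by
    have a1 := Set.ncard_le_ncard hsub (Set.toFinite _)
    have a2 := Set.ncard_union_le ((W.comap M : Submodule (ZMod 2) V) : Set V) (X1 ∪ (X2 ∪ X3))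
    have a3 := Set.ncard_union_le X1 (X2 ∪ X3)
    have a4 := Set.ncard_union_le X2 X3
    omega
  have hc2 : ((W.comap M : Submodule (ZMod 2) V) : Set V).ncard = 2 ^ Module.finrank (ZMod 2) (W.comap M) := by
    have a1 := Module.natCard_eq_pow_finrank (K := ZMod 2) (V := (W.comap M))
    rw [Nat.card_zmod] at a1
    rw [← a1]
    exact (Nat.card_coe_set_eq _).symm
  have hdim : n - 12 * l - 3 ≤ Module.finrank (ZMod 2) (W.comap M) := by
    by_contra hlt
    push Not at hlt
    have a1 : 2 ^ Module.finrank (ZMod 2) (W.comap M) ≤ 2 ^ (n - 12 * l - 4) :=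
      Nat.pow_le_pow_right (by norm_num) (by omega)
    have a2 : 2 ^ (n - 12 * l - 2) = 4 * 2 ^ (n - 12 * l - 4) := by
      have : n - 12 * l - 2 = (n - 12 * l - 4) + 2 := by omega
      rw [this, pow_add]
      ring
    have a3 : 2 ^ 14 ≤ 2 ^ (n - 12 * l - 4) := Nat.pow_le_pow_right (by norm_num) (by omega)
    omega
  have hrank := RKA_rank M W
  omega

end Pool.Agent.GPR
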